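import Mathlib

set_option autoImplicit false

universe u

namespace Pool.Agent.Results.MP_3a4fb1_al.SmallExponent

/-- the subgroup `Fⁿ` of the free group `F` on `X` generated by all `n`-th powers; the free
Burnside group is `B(m,n) = F / Fⁿ`, `m = |X|` -/
def powSub (X : Type u) (n : ℕ) : Subgroup (FreeGroup X) :=
  Subgroup.closure {g | ∃ w : FreeGroup X, g = w ^ n}

/-- `B(m,n)`, `m = |X|`, has a full-order presentation: a set `V` of words whose `n`-th powers
have normal closure `Fⁿ`, such that `v ^ d` is non-trivial in `B(m,n)` for every `v ∈ V` and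
every divisor `d ≠ n` of `n` -/
def HasFullOrderPresentation (X : Type u) (n : ℕ) : Prop :=
  ∃ V : Set (FreeGroup X),
    Subgroup.normalClosure {g | ∃ v ∈ V, g = v ^ n} = powSub X n ∧
    ∀ v ∈ V, ∀ d : ℕ, d ∣ n → d ≠ n → v ^ d ∉ powSub X n

section two
variable {G T : Type*} [Group G] [Group T] (θ : G →* T)

lemma two (H : ∀ g, θ g ≠ 1 → g ^ 2 = 1) {x y : G} (hx : θ x ≠ 1) (hy : θ y ≠ 1)
    (hxy : θ (x * y) ≠ 1) (g : G) : g ^ 2 = 1 := by
  by_cases hg : θ g = 1
  · -- `x`, `y`, `x y` invert `g`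
    have inv : ∀ z, θ z ≠ 1 → z * g * z⁻¹ = g⁻¹ := by
      intro z hz
      have h1 : (z * g) ^ 2 = 1 := H _ (by rw [map_mul, hg, mul_one]; exact hz)
      have h2 : z ^ 2 = 1 := H _ hz
      have h3 : z⁻¹ = z := by
        rw [inv_eq_iff_mul_eq_one, ← pow_two]; exact h2
      rw [h3, eq_inv_iff_mul_eq_one]
      rw [pow_two] at h1
      calc z * g * z * g = z * g * (z * g) := by simp [pow_succ, mul_assoc]
        _ = 1 := h1
    have h1 := inv x hx
    have h2 := inv y hy
    have h3 := inv (x * y) hxy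
    have h4 : (x * y) * g * (x * y)⁻¹ = x * (y * g * y⁻¹) * x⁻¹ := by simp [pow_succ, mul_assoc]
    rw [h4, h2] at h3
    have h5 : x * g⁻¹ * x⁻¹ = g := by
      have : x * g⁻¹ * x⁻¹ = (x * g * x⁻¹)⁻¹ := by simp [pow_succ, mul_assoc]
      rw [this, h1, inv_inv]
    rw [h5] at h3
    rw [pow_two]
    nth_rewrite 1 [h3]
    simp [pow_succ, mul_assoc]
  · exact H g hg

end two

section three
variable {G T : Type*} [Group G] [Group T] (θ : G →* T)

omit [Group T] in
lemma cube_sq {g : G} (h : g ^ 3 = 1) : g * g = g⁻¹ := by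
  rw [eq_inv_iff_mul_eq_one, ← h]
  simp [pow_succ]

omit [Group T] in
lemma cube_inv_sq {g : G} (h : g ^ 3 = 1) : g⁻¹ * g⁻¹ = g := by
  rw [← mul_inv_rev, cube_sq h, inv_inv]

lemma L1 (H : ∀ g, θ g ≠ 1 → g ^ 3 = 1) {g a : G} (hg : θ g ≠ 1) (ha : θ a = 1) :
    a * (g⁻¹ * a * g) * (g⁻¹ * g⁻¹ * a * g * g) = 1 := by
  have h1 : (a * g⁻¹) ^ 3 = 1 := H _ (by
    rw [map_mul, ha, one_mul, map_inv]
    simpa using hg)
  have h2 : g ^ 3 = 1 := H _ hg
  calc a * (g⁻¹ * a * g) * (g⁻¹ * g⁻¹ * a * g * g) = (a * g⁻¹) ^ 3 * g ^ 3 := by simp [pow_succ, mul_assoc]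
    _ = 1 := by rw [h1, h2, one_mul]

lemma L2 (H : ∀ g, θ g ≠ 1 → g ^ 3 = 1) {g a : G} (hg : θ g ≠ 1) (ha : θ a = 1) :
    a * (g⁻¹ * a * g) = (g⁻¹ * a * g) * a := by
  have h1 := L1 θ H hg ha
  have h2 := L1 θ H (a := a⁻¹) hg (by rw [map_inv, ha, inv_one])
  set b := g⁻¹ * a * g with hb
  set c := g⁻¹ * g⁻¹ * a * g * g with hc
  have hb' : g⁻¹ * a⁻¹ * g = b⁻¹ := by rw [hb]; simp [pow_succ, mul_assoc]
  have hc' : g⁻¹ * g⁻¹ * a⁻¹ * g * g = c⁻¹ := by rw [hc]; simp [pow_succ, mul_assoc]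
  rw [hb', hc'] at h2
  -- `a b = c⁻¹` and `b a = c⁻¹`
  have e1 : a * b = c⁻¹ := eq_inv_of_mul_eq_one_left h1
  have e2 : b * a = c⁻¹ := by
    have : a⁻¹ * b⁻¹ = c := by
      have := eq_inv_of_mul_eq_one_left h2
      rw [inv_inv] at this
      exact this
    rw [← this]
    simp [pow_succ, mul_assoc]
  rw [e1, e2]

lemma three (H : ∀ g, θ g ≠ 1 → g ^ 3 = 1) {x y : G} (hx : θ x ≠ 1) (hy : θ y ≠ 1)
    (hxy : θ (x * y) ≠ 1) (hxyy : θ (x * y * y) ≠ 1) (a : G) : a ^ 3 = 1 := by
  by_cases ha : θ a = 1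
  · have conj1 : ∀ g b, θ b = 1 → θ (g⁻¹ * b * g) = 1 := by
      intro g b hb
      rw [map_mul, map_mul, hb, mul_one, map_inv, inv_mul_cancel]
    have x3 : x ^ 3 = 1 := H _ hx
    have y3 : y ^ 3 = 1 := H _ hy
    have xy3 : (x * y) ^ 3 = 1 := H _ hxy
    have xyy3 : (x * y * y) ^ 3 = 1 := H _ hxyy
    -- the four conjugates
    set P := (x * y)⁻¹ * a * (x * y) with hP
    set Q := (x * y * y)⁻¹ * a * (x * y * y) with hQ
    set R := (x * y) * a * (x * y)⁻¹ with hR
    set S := (x * y * y) * a * (x * y * y)⁻¹ with hS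
    have i1 : (x⁻¹ * a * x) * P * Q = 1 := by
      have := L1 θ H (g := y) (a := x⁻¹ * a * x) hy (conj1 x a ha)
      rw [← this, hP, hQ]
      simp [pow_succ, mul_assoc]
    have yy : y⁻¹ * y⁻¹ = y := cube_inv_sq y3
    have xx : x⁻¹ * x⁻¹ = x := cube_inv_sq x3
    have i3 : a * P * R = 1 := by
      have h := L1 θ H (g := x * y) hxy ha
      have e : (x * y)⁻¹ * (x * y)⁻¹ = x * y := cube_inv_sq xy3
      have e' : (x * y) * (x * y) = (x * y)⁻¹ := cube_sq xy3
      rw [e, mul_assoc (x * y * a), e'] at h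
      exact h
    have i4 : a * Q * S = 1 := by
      have h := L1 θ H (g := x * y * y) hxyy ha
      have e : (x * y * y)⁻¹ * (x * y * y)⁻¹ = x * y * y := cube_inv_sq xyy3
      have e' : (x * y * y) * (x * y * y) = (x * y * y)⁻¹ := cube_sq xyy3
      rw [e, mul_assoc (x * y * y * a), e'] at h
      exact h
    -- conjugate of the relation for `y`
    have i2 : (x * a * x⁻¹) * S * R = 1 := by
      have h := L1 θ H (g := y) hy ha
      have e : y * y = y⁻¹ := cube_sq y3
      rw [yy, mul_assoc (y * a), e] at h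
      -- `h : a * (y⁻¹ a y) * (y a y⁻¹) = 1`
      have hS' : S = x * (y⁻¹ * a * y) * x⁻¹ := by
        rw [hS]
        have e2 : x * y * y = x * y⁻¹ := by rw [mul_assoc, e]
        rw [e2]; simp [pow_succ, mul_assoc]
      have hR' : R = x * (y * a * y⁻¹) * x⁻¹ := by rw [hR]; simp [pow_succ, mul_assoc]
      rw [hS', hR']
      calc x * a * x⁻¹ * (x * (y⁻¹ * a * y) * x⁻¹) * (x * (y * a * y⁻¹) * x⁻¹) =
          x * (a * (y⁻¹ * a * y) * (y * a * y⁻¹)) * x⁻¹ := by simp [pow_succ, mul_assoc]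
        _ = 1 := by rw [h]; simp [pow_succ, mul_assoc]
    have i5 : a * (x⁻¹ * a * x) * (x * a * x⁻¹) = 1 := by
      have h := L1 θ H (g := x) hx ha
      have e : x * x = x⁻¹ := cube_sq x3
      rw [xx, mul_assoc (x * a), e] at h
      exact h
    -- `R` commutes with `a`
    have c1 : a * R = R * a := by
      have h := L2 θ H (g := (x * y)⁻¹) (a := a) (by rw [map_inv]; exact inv_ne_one.2 hxy) ha
      rw [inv_inv] at h
      exact h
    -- `x a x⁻¹` commutes with `x⁻¹ a x`
    set b := x⁻¹ * a * x with hb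
    set c := x * a * x⁻¹ with hc
    have hbc : a⁻¹ = b * c := by
      rw [mul_assoc] at i5
      exact inv_eq_of_mul_eq_one_right i5
    have hcb : a⁻¹ = c * b := by
      have c2 : a * b = b * a := L2 θ H hx ha
      rw [c2] at i5
      -- `b a c = 1`, so `a c = b⁻¹`, and `c = a⁻¹ b⁻¹`
      have h1 : c = a⁻¹ * b⁻¹ := by
        have : b * a * c = 1 := i5
        calc c = (b * a)⁻¹ * (b * a * c) := by simp [pow_succ, mul_assoc]
          _ = (b * a)⁻¹ := by rw [this, mul_one]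
          _ = a⁻¹ * b⁻¹ := by simp [pow_succ, mul_assoc]
      rw [h1]; simp [pow_succ, mul_assoc]
    have k1 : P * Q = b⁻¹ := by
      rw [mul_assoc] at i1
      exact (inv_eq_of_mul_eq_one_right i1).symm
    have k2 : S * R = c⁻¹ := by
      rw [mul_assoc] at i2
      exact (inv_eq_of_mul_eq_one_right i2).symm
    have k3 : P * R = a⁻¹ := by
      rw [mul_assoc] at i3
      exact (inv_eq_of_mul_eq_one_right i3).symm
    have k4 : Q * S = a⁻¹ := by
      rw [mul_assoc] at i4
      exact (inv_eq_of_mul_eq_one_right i4).symm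
    have c3 : R * a⁻¹ = a⁻¹ * R := by
      calc R * a⁻¹ = a⁻¹ * (a * R) * a⁻¹ := by simp [pow_succ, mul_assoc]
        _ = a⁻¹ * (R * a) * a⁻¹ := by rw [c1]
        _ = a⁻¹ * R := by simp [pow_succ, mul_assoc]
    have k5 : a⁻¹ * a⁻¹ = a := by
      calc a⁻¹ * a⁻¹ = P * R * (Q * S) := by rw [k3, k4]
        _ = P * (R * (Q * S)) := by simp [pow_succ, mul_assoc]
        _ = P * (R * a⁻¹) := by rw [k4]
        _ = P * (a⁻¹ * R) := by rw [c3]
        _ = P * ((Q * S) * R) := by rw [k4]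
        _ = (P * Q) * (S * R) := by simp [pow_succ, mul_assoc]
        _ = b⁻¹ * c⁻¹ := by rw [k1, k2]
        _ = (c * b)⁻¹ := by simp [pow_succ, mul_assoc]
        _ = a := by rw [← hcb, inv_inv]
    calc a ^ 3 = a * a * a := by simp [pow_succ, mul_assoc]
      _ = a * a * (a⁻¹ * a⁻¹) := by rw [k5]
      _ = 1 := by simp [pow_succ, mul_assoc]
  · exact H a ha

end three

variable {X : Type u}

lemma powSub_normal (X : Type u) (n : ℕ) : (powSub X n).Normal := by
  refine ⟨fun g hg h => ?_⟩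
  refine Subgroup.closure_induction (p := fun g _ => h * g * h⁻¹ ∈ powSub X n) ?_ ?_ ?_ ?_ hg
  · rintro _ ⟨w, rfl⟩
    exact Subgroup.subset_closure ⟨h * w * h⁻¹, by rw [conj_pow]⟩
  · simp
  · intro a b _ _ ha hb
    have := mul_mem ha hb
    simpa [mul_assoc] using this
  · intro a _ ha
    have := inv_mem ha
    simpa [mul_assoc] using this

lemma powSub_le_ker {T : Type*} [Group T] (θ : FreeGroup X →* T) (n : ℕ)
    (hT : ∀ t : T, t ^ n = 1) : powSub X n ≤ θ.ker := by
  unfold powSub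
  rw [Subgroup.closure_le]
  rintro _ ⟨w, rfl⟩
  rw [SetLike.mem_coe, MonoidHom.mem_ker, map_pow, hT]

lemma closure_le_powSub (V : Set (FreeGroup X)) (n : ℕ) :
    Subgroup.normalClosure {g | ∃ v ∈ V, g = v ^ n} ≤ powSub X n := by
  have := powSub_normal X n
  apply Subgroup.normalClosure_le_normal
  rintro _ ⟨v, _, rfl⟩
  exact Subgroup.subset_closure ⟨v, rfl⟩

/-- rank one -/
lemma rank_one [Nonempty X] [Subsingleton X] (n : ℕ) (hn : 1 ≤ n) :
    HasFullOrderPresentation X n := by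
  obtain ⟨x0⟩ := ‹Nonempty X›
  have hz : ∀ w : FreeGroup X, w ∈ Subgroup.zpowers (FreeGroup.of x0) := by
    intro w
    refine FreeGroup.induction_on w (one_mem _) (fun x => ?_) (fun x h => inv_mem h)
      (fun x y hx hy => mul_mem hx hy)
    rw [Subsingleton.elim x x0]
    exact Subgroup.mem_zpowers _
  refine ⟨{FreeGroup.of x0}, le_antisymm (closure_le_powSub _ n) ?_, ?_⟩
  · unfold powSub
    rw [Subgroup.closure_le]
    rintro _ ⟨w, rfl⟩
    obtain ⟨k, rfl⟩ := Subgroup.mem_zpowers_iff.1 (hz w)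
    rw [← zpow_natCast, ← zpow_mul, mul_comm, zpow_mul, zpow_natCast]
    have hm : FreeGroup.of x0 ^ n ∈ Subgroup.normalClosure
        {g | ∃ v ∈ ({FreeGroup.of x0} : Set (FreeGroup X)), g = v ^ n} :=
      Subgroup.subset_normalClosure ⟨FreeGroup.of x0, rfl, rfl⟩
    exact zpow_mem hm k
  · rintro v rfl d hd hdn hmem
    have : NeZero n := ⟨by omega⟩
    have hle := powSub_le_ker
      (FreeGroup.lift (fun _ : X => Multiplicative.ofAdd (1 : ZMod n))) n
      (fun t => by
        change Multiplicative.ofAdd (n • (Multiplicative.toAdd t)) = 1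
        rw [nsmul_eq_mul, ZMod.natCast_self, zero_mul]
        rfl)
    have h1 := hle hmem
    rw [MonoidHom.mem_ker, map_pow, FreeGroup.lift_apply_of, ← ofAdd_nsmul] at h1
    have h2 : (d • (1 : ZMod n)) = 0 := h1
    rw [nsmul_eq_mul, mul_one, ZMod.natCast_eq_zero_iff] at h2
    exact hdn (Nat.dvd_antisymm hd h2)

/-- exponents two and three, rank at least two -/
lemma prime_case [Nontrivial X] (p : ℕ) (hp : p = 2 ∨ p = 3) :
    HasFullOrderPresentation X p := by
  classical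
  obtain ⟨x0, x1, hne⟩ := exists_pair_ne X
  set θ0 : FreeGroup X →* Multiplicative (ZMod p × ZMod p) :=
    FreeGroup.lift (fun x => if x = x0 then Multiplicative.ofAdd (1, 0) else
      if x = x1 then Multiplicative.ofAdd (0, 1) else 1) with hθ0
  have hT : ∀ t : Multiplicative (ZMod p × ZMod p), t ^ p = 1 := by
    intro t
    change Multiplicative.ofAdd (p • (Multiplicative.toAdd t)) = 1
    have : p • (Multiplicative.toAdd t) = 0 := by
      ext
      · simp
      · simp
    rw [this]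
    rfl
  have e0 : θ0 (FreeGroup.of x0) = Multiplicative.ofAdd (1, 0) := by
    rw [hθ0, FreeGroup.lift_apply_of, if_pos rfl]
  have e1 : θ0 (FreeGroup.of x1) = Multiplicative.ofAdd (0, 1) := by
    rw [hθ0, FreeGroup.lift_apply_of, if_neg hne.symm, if_pos rfl]
  set V : Set (FreeGroup X) := {v | θ0 v ≠ 1} with hV
  set R := Subgroup.normalClosure {g | ∃ v ∈ V, g = v ^ p} with hR
  have hRk : R ≤ θ0.ker := (closure_le_powSub V p).trans (powSub_le_ker θ0 p hT)
  let θ : FreeGroup X ⧸ R →* Multiplicative (ZMod p × ZMod p) := QuotientGroup.lift R θ0 hRk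
  have hθ : ∀ v : FreeGroup X, θ (v : FreeGroup X ⧸ R) = θ0 v := fun v => rfl
  have H : ∀ g : FreeGroup X ⧸ R, θ g ≠ 1 → g ^ p = 1 := by
    intro g hg
    obtain ⟨v, rfl⟩ := QuotientGroup.mk_surjective g
    rw [← QuotientGroup.mk_pow, QuotientGroup.eq_one_iff]
    exact Subgroup.subset_normalClosure ⟨v, hg, rfl⟩
  have hall : ∀ g : FreeGroup X ⧸ R, g ^ p = 1 := by
    rcases hp with rfl | rfl
    · refine two θ H (x := (FreeGroup.of x0 : FreeGroup X)) (y := (FreeGroup.of x1 : FreeGroup X))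
        ?_ ?_ ?_
      · rw [hθ, e0]; decide
      · rw [hθ, e1]; decide
      · rw [← QuotientGroup.mk_mul, hθ, map_mul, e0, e1]; decide
    · refine three θ H (x := (FreeGroup.of x0 : FreeGroup X)) (y := (FreeGroup.of x1 : FreeGroup X))
        ?_ ?_ ?_ ?_
      · rw [hθ, e0]; decide
      · rw [hθ, e1]; decide
      · rw [← QuotientGroup.mk_mul, hθ, map_mul, e0, e1]; decide
      · rw [← QuotientGroup.mk_mul, ← QuotientGroup.mk_mul, hθ, map_mul, map_mul, e0, e1]; decide
  refine ⟨V, le_antisymm (closure_le_powSub _ p) ?_, ?_⟩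
  · unfold powSub
    rw [Subgroup.closure_le]
    rintro _ ⟨w, rfl⟩
    have := hall (w : FreeGroup X ⧸ R)
    rw [← QuotientGroup.mk_pow, QuotientGroup.eq_one_iff] at this
    exact this
  · intro v hv d hd hdp hmem
    have hpp : Nat.Prime p := by rcases hp with rfl | rfl <;> norm_num
    have hd1 : d = 1 := ((Nat.dvd_prime hpp).1 hd).resolve_right hdp
    rw [hd1, pow_one] at hmem
    exact hv (MonoidHom.mem_ker.1 (powSub_le_ker θ0 p hT hmem))

/-- `B(m,n)` has a full-order presentation for every rank `m ≥ 1` (finite or infinite) when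
`1 ≤ n ≤ 3`, and for every `n ≥ 1` when `m = 1`. -/
theorem result (X : Type u) [Nonempty X] (n : ℕ) (hn : 1 ≤ n) (h : n ≤ 3 ∨ Subsingleton X) :
    HasFullOrderPresentation X n := by
  rcases subsingleton_or_nontrivial X with hX | hX
  · exact rank_one n hn
  · have h3 : n ≤ 3 := h.resolve_right (not_subsingleton X)
    rcases Nat.lt_or_ge n 2 with h1 | h2
    · have : n = 1 := by omega
      subst this
      refine ⟨Set.univ, le_antisymm (closure_le_powSub _ 1) ?_, ?_⟩
      · intro g _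
        exact Subgroup.subset_normalClosure ⟨g, Set.mem_univ g, (pow_one g).symm⟩
      · intro v _ d hd hd1
        exact absurd (Nat.dvd_one.1 hd) hd1
    · exact prime_case n (by omega)

end Pool.Agent.Results.MP_3a4fb1_al.SmallExponent
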